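import Pool.Agent.H947R2.TP.Stubs

/-!
# Task A1 of MP_c4753b_co: irredundant coverings of a coset
-/

namespace H947TP

namespace A1x

/-- every finite cover contains an irredundant one -/
theorem exists_irredundant {ι Y : Type} [DecidableEq ι] (P : ι → Y → Prop) (S : Y → Prop)
    (K : Finset ι) (hK : ∀ y, S y → ∃ i ∈ K, P i y) :
    ∃ K2, K2 ⊆ K ∧ (∀ y, S y → ∃ i ∈ K2, P i y) ∧
      ∀ i ∈ K2, ∃ y, S y ∧ ∀ j ∈ K2, P j y → j = i := by
  induction K using Finset.strongInduction with
  | H K ih =>
    by_cases hir : ∀ i ∈ K, ∃ y, S y ∧ ∀ j ∈ K, P j y → j = i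
    · exact ⟨K, subset_rfl, hK, hir⟩
    · push Not at hir
      obtain ⟨i, hi, hno⟩ := hir
      obtain ⟨K2, h1, h2, h3⟩ := ih (K.erase i) (Finset.erase_ssubset hi) (by
        intro y hy
        obtain ⟨j, hj, hP, hne⟩ := hno y hy
        exact ⟨j, Finset.mem_erase.2 ⟨hne, hj⟩, hP⟩)
      exact ⟨K2, h1.trans (Finset.erase_subset _ _), h2, h3⟩

section
variable {X : Type} [CommGroup X] {ι : Type}

/-- the common kernel in `B` -/
noncomputable def DD (c : ι → (X →* ℂˣ)) (K : Finset ι) (B : Subgroup X) : Subgroup X :=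
  B ⊓ ⨅ i ∈ K, (c i).ker

theorem mem_DD {c : ι → (X →* ℂˣ)} {K : Finset ι} {B : Subgroup X} {x : X} :
    x ∈ DD c K B ↔ x ∈ B ∧ ∀ i ∈ K, c i x = 1 := by
  simp [DD, Subgroup.mem_inf, Subgroup.mem_iInf, MonoidHom.mem_ker]

theorem DD_le {c : ι → (X →* ℂˣ)} {K : Finset ι} {B : Subgroup X} : DD c K B ≤ B :=
  inf_le_left

theorem DD_union [DecidableEq ι] {c : ι → (X →* ℂˣ)} {K K' : Finset ι} {B : Subgroup X} :
    DD c K' (DD c K B) = DD c (K ∪ K') B := by
  ext x
  simp only [mem_DD, Finset.mem_union]
  constructor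
  · rintro ⟨⟨h1, h2⟩, h3⟩
    refine ⟨h1, ?_⟩
    rintro i (hi | hi)
    · exact h2 i hi
    · exact h3 i hi
  · rintro ⟨h1, h2⟩
    exact ⟨⟨h1, fun i hi => h2 i (Or.inl hi)⟩, fun i hi => h2 i (Or.inr hi)⟩

/-- number of prime factors of the relative index -/
noncomputable def Om (A B : Subgroup X) : ℕ := ArithmeticFunction.cardFactors (A.relIndex B)

theorem Om_add [Finite X] {A B C : Subgroup X} (h1 : A ≤ B) (h2 : B ≤ C) :
    Om A C = Om A B + Om B C := by
  have hne : ∀ A B : Subgroup X, A.relIndex B ≠ 0 := by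
    intro A B
    exact Subgroup.index_ne_zero_of_finite
  unfold Om
  rw [← Subgroup.relIndex_mul_relIndex A B C h1 h2,
    ArithmeticFunction.cardFactors_mul (hne _ _) (hne _ _)]

/-- the conclusion of `A1` for smaller groups -/
def IH (c : ι → (X →* ℂˣ)) (q : ι → ℕ) (B : Subgroup X) : Prop :=
  ∀ (x0 : X) (K : Finset ι),
  (∀ x ∈ B, ∃ i ∈ K, c i (x0 * x) ∈ Zq (q i)) →
  (∀ i ∈ K, ∃ x ∈ B, ∀ j ∈ K, c j (x0 * x) ∈ Zq (q j) → j = i) →
  Om (DD c K B) B + 1 ≤ ∑ i ∈ K, wt (q i)

/-- the greedy claim -/
theorem greedy [Finite X] [DecidableEq ι] {c : ι → (X →* ℂˣ)} {q : ι → ℕ} {B B' : Subgroup X}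
    (hlt : B' < B) (hIH : ∀ A : Subgroup X, A < B → IH c q A) {x0 : X} {K : Finset ι}
    (hcov : ∀ x ∈ B, ∃ i ∈ K, c i (x0 * x) ∈ Zq (q i))
    (hirr : ∀ i ∈ K, ∃ x ∈ B, ∀ j ∈ K, c j (x0 * x) ∈ Zq (q j) → j = i) :
    ∀ (n : ℕ) (K' : Finset ι) (r : ℕ), K' ⊆ K → (K \ K').card = n →
      r + Om (DD c K' B') B' ≤ ∑ i ∈ K', wt (q i) →
      r + Om (DD c K B') B' ≤ ∑ i ∈ K, wt (q i) ∧
        (K' ≠ K → r + 1 + Om (DD c K B') B' ≤ ∑ i ∈ K, wt (q i)) := by
  intro n
  induction n using Nat.strong_induction_on with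
  | _ n ih =>
    intro K' r hsub hcard hle
    by_cases hK : K' = K
    · subst hK
      exact ⟨hle, fun h => absurd rfl h⟩
    · have key : r + 1 + Om (DD c K B') B' ≤ ∑ i ∈ K, wt (q i) := by
        obtain ⟨j, hj, hjK'⟩ : ∃ j ∈ K, j ∉ K' := by
          by_contra hcon
          push Not at hcon
          exact hK (Finset.Subset.antisymm hsub hcon)
        obtain ⟨x, hxB, hx⟩ := hirr j hj
        have hD : DD c K' B' < B := lt_of_le_of_lt DD_le hlt
        obtain ⟨K2, hK2, hc2, hi2⟩ := exists_irredundant
          (fun i y => c i (x0 * x * y) ∈ Zq (q i)) (fun y => y ∈ DD c K' B') (K \ K') (by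
            intro y hy
            obtain ⟨k, hk, hkz⟩ := hcov (x * y) (B.mul_mem hxB (hD.le hy))
            refine ⟨k, ?_, by rw [mul_assoc]; exact hkz⟩
            rw [Finset.mem_sdiff]
            refine ⟨hk, fun hkK' => ?_⟩
            have h1 : c k y = 1 := (mem_DD.1 hy).2 k hkK'
            have h2 : c k (x0 * (x * y)) = c k (x0 * x) := by
              rw [← mul_assoc, map_mul, h1, mul_one]
            rw [h2] at hkz
            exact hjK' (hx k hk hkz ▸ hkK'))
        have h3 := hIH _ hD (x0 * x) K2 hc2 hi2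
        have hdisj : Disjoint K' K2 := by
          rw [Finset.disjoint_left]
          intro a ha ha2
          exact (Finset.mem_sdiff.1 (hK2 ha2)).2 ha
        rw [DD_union] at h3
        have h4 : Om (DD c (K' ∪ K2) B') B' =
            Om (DD c (K' ∪ K2) B') (DD c K' B') + Om (DD c K' B') B' :=
          Om_add (by rw [← DD_union]; exact DD_le) DD_le
        have hne2 : K2.Nonempty := by
          obtain ⟨i, hi, -⟩ := hc2 1 (Subgroup.one_mem _)
          exact ⟨i, hi⟩
        have hsub2 : K' ∪ K2 ⊆ K :=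
          Finset.union_subset hsub (hK2.trans Finset.sdiff_subset)
        have hlt2 : (K \ (K' ∪ K2)).card < n := by
          rw [← hcard]
          apply Finset.card_lt_card
          obtain ⟨i, hi⟩ := hne2
          refine Finset.ssubset_iff_subset_ne.2 ⟨?_, ?_⟩
          · exact Finset.sdiff_subset_sdiff subset_rfl Finset.subset_union_left
          · intro heq
            have : i ∈ K \ (K' ∪ K2) := by rw [heq]; exact hK2 hi
            exact (Finset.mem_sdiff.1 this).2 (Finset.mem_union_right _ hi)
        have h5 := (ih _ hlt2 (K' ∪ K2) (r + 1) hsub2 rfl (by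
          rw [Finset.sum_union hdisj, h4]
          omega)).1
        exact h5
      exact ⟨by omega, fun _ => key⟩

end

end A1x

open A1x in
theorem A1 (h : St_A1a) : St_A1 := by
  intro X _ _ ι _ _ c q hq
  suffices H : ∀ (n : ℕ) (B : Subgroup X), Nat.card B = n → IH c q B by
    intro B x0 K h1 h2
    exact H _ B rfl x0 K h1 h2
  intro n
  induction n using Nat.strong_induction_on with
  | _ n ihn =>
    intro B hB x0 K hcov hirr
    have hIH : ∀ A : Subgroup X, A < B → IH c q A := by
      intro A hA
      refine ihn (Nat.card A) ?_ A rfl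
      rw [← hB]
      exact Set.ncard_lt_ncard hA (Set.toFinite _)
    -- a member of `K` covering the whole coset is the only one
    have hsingle : ∀ i ∈ K, (∀ x ∈ B, c i (x0 * x) ∈ Zq (q i)) → K = {i} := by
      intro i hi hall
      refine Finset.eq_singleton_iff_unique_mem.2 ⟨hi, fun j hj => ?_⟩
      obtain ⟨x, hx, hp⟩ := hirr j hj
      exact (hp i hi (hall x hx)).symm
    have hwt : ∀ i, 1 ≤ wt (q i) := by
      intro i
      unfold wt
      split_ifs with h0
      · exact le_rfl
      · have h2 : 2 ≤ q i := (hq i).resolve_left h0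
        exact ArithmeticFunction.cardFactors_pos_iff_one_lt.2 h2
    by_cases htriv : ∀ i ∈ K, B ⊓ (c i).ker = B
    · obtain ⟨i, hi, hiz⟩ := hcov 1 B.one_mem
      have hall : ∀ x ∈ B, c i (x0 * x) ∈ Zq (q i) := by
        intro x hx
        have h1 : x ∈ B ⊓ (c i).ker := by rw [htriv i hi]; exact hx
        have h2 : c i x = 1 := (Subgroup.mem_inf.1 h1).2
        rw [map_mul, h2, ← map_one (c i), ← map_mul]
        exact hiz
      have hK := hsingle i hi hall
      have hDD : DD c K B = B := by
        rw [hK]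
        unfold DD
        simp only [Finset.mem_singleton, iInf_iInf_eq_left]
        exact htriv i hi
      rw [hDD, hK, Finset.sum_singleton]
      have : Om B B = 0 := by
        unfold Om
        rw [Subgroup.relIndex_self]
        simp
      rw [this]
      have := hwt i
      omega
    · push Not at htriv
      obtain ⟨i, hi, hne⟩ := htriv
      have hzero : ∃ x ∈ B, c i (x0 * x) ∈ Zq (q i) := by
        obtain ⟨x, hx, hp⟩ := hirr i hi
        obtain ⟨k, hk, hkz⟩ := hcov x hx
        have := hp k hk hkz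
        subst this
        exact ⟨x, hx, hkz⟩
      rcases h X (c i) (q i) (hq i) B x0 hzero with ⟨hall, hle⟩ | ⟨B', hB'B, hker, hpr, y, hy, hfree⟩ |
        ⟨hne', hle, y, hy, hfree⟩
      · have hK := hsingle i hi hall
        have hDD : DD c K B = B ⊓ (c i).ker := by
          rw [hK]
          unfold DD
          simp only [Finset.mem_singleton, iInf_iInf_eq_left]
        rw [hDD, hK, Finset.sum_singleton]
        exact hle
      · have hlt : B' < B := by
          refine lt_of_le_of_ne hB'B ?_
          intro heq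
          rw [heq, Subgroup.relIndex_self] at hpr
          exact Nat.not_prime_one hpr
        obtain ⟨K2, hK2, hc2, hi2⟩ := exists_irredundant
          (fun i z => c i (x0 * y * z) ∈ Zq (q i)) (fun z => z ∈ B') (K.erase i) (by
            intro z hz
            obtain ⟨k, hk, hkz⟩ := hcov (y * z) (B.mul_mem hy (hB'B hz))
            refine ⟨k, ?_, by rw [mul_assoc]; exact hkz⟩
            rw [Finset.mem_erase]
            refine ⟨fun hki => ?_, hk⟩
            subst hki
            exact hfree z hz hkz)
        have h3 := hIH _ hlt (x0 * y) K2 hc2 hi2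
        have hneK : K2 ≠ K := by
          intro heq
          have : i ∈ K2 := by rw [heq]; exact hi
          exact (Finset.mem_erase.1 (hK2 this)).1 rfl
        have h4 := (greedy hlt hIH hcov hirr _ K2 1 (hK2.trans (Finset.erase_subset _ _)) rfl
          (by omega)).2 hneK
        have hDD : DD c K B' = DD c K B := by
          ext x
          simp only [mem_DD]
          constructor
          · rintro ⟨h1, h2⟩
            exact ⟨hB'B h1, h2⟩
          · rintro ⟨h1, h2⟩
            exact ⟨hker (Subgroup.mem_inf.2 ⟨h1, h2 i hi⟩), h2⟩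
        rw [hDD] at h4
        have h5 : Om (DD c K B) B = Om (DD c K B) B' + Om B' B :=
          Om_add (by rw [← hDD]; exact DD_le) hB'B
        have h6 : Om B' B = 1 := ArithmeticFunction.cardFactors_apply_prime hpr
        omega
      · have hlt : B ⊓ (c i).ker < B := lt_of_le_of_ne inf_le_left hne'
        obtain ⟨K2, hK2, hc2, hi2⟩ := exists_irredundant
          (fun i z => c i (x0 * y * z) ∈ Zq (q i)) (fun z => z ∈ B ⊓ (c i).ker) (K.erase i) (by
            intro z hz
            obtain ⟨k, hk, hkz⟩ := hcov (y * z) (B.mul_mem hy (hlt.le hz))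
            refine ⟨k, ?_, by rw [mul_assoc]; exact hkz⟩
            rw [Finset.mem_erase]
            refine ⟨fun hki => ?_, hk⟩
            subst hki
            exact hfree z hz hkz)
        have h3 := hIH _ hlt (x0 * y) K2 hc2 hi2
        have hiK2 : i ∉ K2 := fun hmem => (Finset.mem_erase.1 (hK2 hmem)).1 rfl
        have hDD2 : DD c (insert i K2) (B ⊓ (c i).ker) = DD c K2 (B ⊓ (c i).ker) := by
          ext x
          simp only [mem_DD, Finset.mem_insert]
          constructor
          · rintro ⟨h1, h2⟩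
            exact ⟨h1, fun k hk => h2 k (Or.inr hk)⟩
          · rintro ⟨h1, h2⟩
            refine ⟨h1, ?_⟩
            rintro k (rfl | hk)
            · exact (Subgroup.mem_inf.1 h1).2
            · exact h2 k hk
        have h4 := (greedy hlt hIH hcov hirr _ (insert i K2) (1 + wt (q i))
          (Finset.insert_subset hi (hK2.trans (Finset.erase_subset _ _))) rfl
          (by
            rw [Finset.sum_insert hiK2, hDD2]
            omega)).1
        have hDD : DD c K (B ⊓ (c i).ker) = DD c K B := by
          ext x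
          simp only [mem_DD]
          constructor
          · rintro ⟨h1, h2⟩
            exact ⟨hlt.le h1, h2⟩
          · rintro ⟨h1, h2⟩
            exact ⟨Subgroup.mem_inf.2 ⟨h1, h2 i hi⟩, h2⟩
        rw [hDD] at h4
        have h5 : Om (DD c K B) B = Om (DD c K B) (B ⊓ (c i).ker) + Om (B ⊓ (c i).ker) B :=
          Om_add (by rw [← hDD]; exact DD_le) hlt.le
        have h6 : Om (B ⊓ (c i).ker) B ≤ wt (q i) := hle
        omega

end H947TP
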